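import Pool.Agent.Helper12.MA.StC
import Pool.Agent.Helper12.MA.Lib

/-!
# Project MA, module UNX: two cuts
-/

set_option autoImplicit false

namespace Pool.Agent.Helper43.MA

open Pool.Agent.Helper12.MA
open Pool.Agent.Helper51.AJ (IsMinor Planar Apex ExMinor Con Tch)
open Pool.Agent.Helper12.NK (rst Kc add cnt Pcy IsFace Cof plus)

variable {V : Type}

private lemma c3 (a b c : V) : ({a, b, c} : Set V).ncard ≤ 3 := by
  classical
  have h : ({a, b, c} : Set V) = ↑({a, b, c} : Finset V) := by simp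
  rw [h, Set.ncard_coe_finset]
  exact Finset.card_le_three

private lemma c4 (a b c d : V) : ({a, b, c, d} : Set V).ncard ≤ 4 := by
  classical
  have h : ({a, b, c, d} : Set V) = ↑({a, b, c, d} : Finset V) := by simp
  rw [h, Set.ncard_coe_finset]
  exact Finset.card_le_four

private lemma c5 (a b c d e : V) : ({a, b, c, d, e} : Set V).ncard ≤ 5 := by
  classical
  have h : ({a, b, c, d, e} : Set V) = ↑({a, b, c, d, e} : Finset V) := by simp
  rw [h, Set.ncard_coe_finset]
  exact Finset.card_le_five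

/-- Four elements: the last two are different from the first two. -/
private lemma ne4 [Finite V] {a b c d : V} (h : ({a, b, c, d} : Set V).ncard = 4) :
    c ≠ a ∧ c ≠ b ∧ d ≠ a ∧ d ≠ b := by
  have key : ∀ x y w : V, ({a, b, c, d} : Set V) ⊆ {x, y, w} → False := by
    intro x y w hs
    have h1 := Set.ncard_le_ncard hs (Set.toFinite _)
    have h2 := c3 x y w
    omega
  refine ⟨fun e => key a b d ?_, fun e => key a b d ?_, fun e => key a b c ?_, fun e => key a b c ?_⟩ <;>
  · subst e
    intro x hx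
    simp only [Set.mem_insert_iff, Set.mem_singleton_iff] at hx ⊢
    tauto

/-- Five elements: the middle two are different from the last two. -/
private lemma ne5 [Finite V] {a b c d e : V} (h : 5 ≤ ({a, b, c, d, e} : Set V).ncard) :
    b ≠ d ∧ b ≠ e ∧ c ≠ d ∧ c ≠ e := by
  have key : ∀ x y w u : V, ({a, b, c, d, e} : Set V) ⊆ {x, y, w, u} → False := by
    intro x y w u hs
    have h1 := Set.ncard_le_ncard hs (Set.toFinite _)
    have h2 := c4 x y w u
    omega
  refine ⟨fun e' => key a b c e ?_, fun e' => key a b c d ?_, fun e' => key a b c e ?_,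
    fun e' => key a b c d ?_⟩ <;>
  · subst e'
    intro x hx
    simp only [Set.mem_insert_iff, Set.mem_singleton_iff] at hx ⊢
    tauto

/-- UNX. -/
theorem hUNX (hb : StBAS) : StUNX := by
  intro V _ G z v p q r r' f1 f2 f3 f4 hC σ b σ' b' X Y X' Y' h1 h2 hne
  have hnb := (hb V G hC.bh).2.2.2.2.2.1
  have s1 := h1.sep
  have s2 := h2.sep
  -- elements of the sides are not in the cut sets
  have qX : ∀ a ∈ X, a ∉ ({v, z, σ, b} : Set V) := fun a ha => by
    have h : a ∈ X ∪ Y := Or.inl ha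
    rw [s1.cov] at h
    exact h
  have qX' : ∀ a ∈ X', a ∉ ({v, z, σ', b'} : Set V) := fun a ha => by
    have h : a ∈ X' ∪ Y' := Or.inl ha
    rw [s2.cov] at h
    exact h
  have qY : ∀ a ∈ Y, a ∉ X := fun a ha hx => Set.disjoint_left.1 s1.dis hx ha
  have qY' : ∀ a ∈ Y', a ∉ X' := fun a ha hx => Set.disjoint_left.1 s2.dis hx ha
  have out : ∀ a, a ∉ X → a ∉ Y → a = v ∨ a = z ∨ a = σ ∨ a = b := by
    intro a ha ha'
    by_contra hcon
    have h : a ∈ ({v, z, σ, b} : Set V)ᶜ := fun k => hcon (by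
      simpa only [Set.mem_insert_iff, Set.mem_singleton_iff] using k)
    rw [← s1.cov] at h
    exact h.elim ha ha'
  have out' : ∀ a, a ∉ X' → a ∉ Y' → a = v ∨ a = z ∨ a = σ' ∨ a = b' := by
    intro a ha ha'
    by_contra hcon
    have h : a ∈ ({v, z, σ', b'} : Set V)ᶜ := fun k => hcon (by
      simpa only [Set.mem_insert_iff, Set.mem_singleton_iff] using k)
    rw [← s2.cov] at h
    exact h.elim ha ha'
  -- neighbours of D
  have key : ∀ n ∈ Nb G (X ∩ Y'), n = v ∨ ((n = σ ∨ n = b) ∧ n ∉ X') ∨ ((n = σ' ∨ n = b') ∧ n ∈ X) := by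
    rintro n ⟨hn, a, ⟨haX, haY'⟩, hadj⟩
    have hap : a ≠ p := fun e => qY' a haY' (e ▸ s2.xL)
    have haq : a ≠ q := fun e => qY a (e ▸ s1.yR) haX
    have hnz : n ≠ z := by
      rintro rfl
      rcases (hC.ds.nb a).1 hadj.symm with e | e | e | e | e
      · exact qX a haX (by rw [e]; exact Set.mem_insert _ _)
      · exact hap e
      · exact haq e
      · exact qY a (e ▸ h1.rY) haX
      · exact qY' a haY' (e ▸ h2.sX)
    have hnX' : n ∉ X' := fun hx => haq (s2.only n hx a haY' hadj.symm).2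
    by_cases hnX : n ∈ X
    · have hnY' : n ∉ Y' := fun hy => hn ⟨hnX, hy⟩
      rcases out' n hnX' hnY' with e | e | e | e
      · exact Or.inl e
      · exact absurd e hnz
      · exact Or.inr (Or.inr ⟨Or.inl e, hnX⟩)
      · exact Or.inr (Or.inr ⟨Or.inr e, hnX⟩)
    · have hnY : n ∉ Y := fun hy => hap (s1.only a haX n hy hadj).1
      rcases out n hnX hnY with e | e | e | e
      · exact Or.inl e
      · exact absurd e hnz
      · exact Or.inr (Or.inl ⟨Or.inl e, hnX'⟩)
      · exact Or.inr (Or.inl ⟨Or.inr e, hnX'⟩)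
  have hsub : Nb G (X ∩ Y') ⊆ {v, σ, b, σ', b'} := by
    intro n hn
    simp only [Set.mem_insert_iff, Set.mem_singleton_iff]
    rcases key n hn with e | ⟨e | e, -⟩ | ⟨e | e, -⟩
    · exact Or.inl e
    · exact Or.inr (Or.inl e)
    · exact Or.inr (Or.inr (Or.inl e))
    · exact Or.inr (Or.inr (Or.inr (Or.inl e)))
    · exact Or.inr (Or.inr (Or.inr (Or.inr e)))
  -- p is not in D and not a neighbour of D
  have hpD : p ∉ X ∩ Y' := fun h => qY' p h.2 s2.xL
  have hpN : p ∉ Nb G (X ∩ Y') := by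
    intro h
    have hq := qX p s1.xL
    have hq' := qX' p s2.xL
    simp only [Set.mem_insert_iff, Set.mem_singleton_iff, not_or] at hq hq'
    rcases key p h with e | ⟨e | e, -⟩ | ⟨e | e, -⟩
    · exact hq.1 e
    · exact hq.2.2.1 e
    · exact hq.2.2.2 e
    · exact hq'.2.2.1 e
    · exact hq'.2.2.2 e
  have h5 : 5 ≤ (Nb G (X ∩ Y')).ncard := by
    by_contra hcon
    have h := hnb (X ∩ Y') hne (by omega)
    have hp : p ∈ (X ∩ Y') ∪ Nb G (X ∩ Y') := by rw [h]; exact Set.mem_univ p
    exact hp.elim hpD hpN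
  have heq : Nb G (X ∩ Y') = {v, σ, b, σ', b'} := by
    refine Set.eq_of_subset_of_ncard_le hsub ?_ (Set.toFinite _)
    exact (c5 v σ b σ' b').trans h5
  obtain ⟨n1, n2, n3, n4⟩ := ne5 (heq ▸ h5)
  obtain ⟨k1, k2, k3, k4⟩ := ne4 s1.card
  obtain ⟨l1, l2, l3, l4⟩ := ne4 s2.card
  have mem : ∀ x, x = v ∨ x = σ ∨ x = b ∨ x = σ' ∨ x = b' → x ∈ Nb G (X ∩ Y') := by
    intro x hx
    rw [heq]
    simpa only [Set.mem_insert_iff, Set.mem_singleton_iff] using hx
  refine ⟨?_, ?_, ?_, ?_⟩
  · rcases key σ (mem σ (by tauto)) with e | ⟨-, e⟩ | ⟨e | e, -⟩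
    · exact absurd e k1
    · by_contra hY
      rcases out' σ e hY with e' | e' | e' | e'
      · exact k1 e'
      · exact k2 e'
      · exact n1 e'
      · exact n2 e'
    · exact absurd e n1
    · exact absurd e n2
  · rcases key b (mem b (by tauto)) with e | ⟨-, e⟩ | ⟨e | e, -⟩
    · exact absurd e k3
    · by_contra hY
      rcases out' b e hY with e' | e' | e' | e'
      · exact k3 e'
      · exact k4 e'
      · exact n3 e'
      · exact n4 e'
    · exact absurd e n3
    · exact absurd e n4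
  · rcases key σ' (mem σ' (by tauto)) with e | ⟨e | e, -⟩ | ⟨-, e⟩
    · exact absurd e l1
    · exact absurd e.symm n1
    · exact absurd e.symm n3
    · exact e
  · rcases key b' (mem b' (by tauto)) with e | ⟨e | e, -⟩ | ⟨-, e⟩
    · exact absurd e l3
    · exact absurd e.symm n2
    · exact absurd e.symm n4
    · exact e

end Pool.Agent.Helper43.MA
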